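import Mathlib
import Pool.Agent.MP_15ac55_ag.DefsC
import Pool.Agent.Mg.F15ac55.G32c5b1

set_option autoImplicit false

namespace Pool.Agent.Results.MP_15ac55_ag.Stab

open Pool.Agent.MP_15ac55_ag

/-- For all `d₀, n₀` the sequence `k ↦ 𝔯_{d₀+2k, n₀+k}` is eventually constant. -/
theorem result (d₀ n₀ : ℕ) :
    ∃ K c : ℕ, ∀ k : ℕ, K ≤ k → numRel (d₀ + 2 * k) (n₀ + k) = c :=
  main' d₀ n₀

end Pool.Agent.Results.MP_15ac55_ag.Stab
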